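import Mathlib
import Pool.Agent.H322R3.HypDefs
import Pool.Agent.H322R3.HypMain

set_option autoImplicit false

namespace Pool.Agent.Results.MP_462f25_al.CocompactOffLimitSet

open Pool.Agent.H322R3.Hyp TopologicalSpace

/-- Let `Γ` be a word-hyperbolic group with finite generating set `S`, acting as a convergence
group on the compact metrizable space `X`, and let `Λ` be a compact invariant subset which is
`Γ`-equivariantly homeomorphic to the Gromov boundary of `Γ`. Then the action of `Γ` on `X - Λ` is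
cocompact. -/
theorem result {Γ : Type*} [Group Γ] (S : Set Γ) (hfin : S.Finite)
    (hS : Subgroup.closure S = ⊤) (hyp : IsHyperbolic S)
    {X : Type*} [TopologicalSpace X] [CompactSpace X] [MetrizableSpace X]
    [MulAction Γ X] [ContinuousConstSMul Γ X] (hconv : IsConvergenceAction Γ X)
    (Λ : Set X) (hΛ : IsCompact Λ) (hinv : ∀ g : Γ, ∀ x ∈ Λ, g • x ∈ Λ)
    (f : Boundary S ≃ₜ Λ)
    (hf : ∀ (g : Γ) (ξ : Boundary S), (f (bsmul hS g ξ) : X) = g • (f ξ : X)) :
    ∃ K : Set X, IsCompact K ∧ K ⊆ Λᶜ ∧ ∀ x ∈ Λᶜ, ∃ g : Γ, g • x ∈ K := by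
  let _ : MetricSpace X := metrizableSpaceMetric X
  obtain ⟨δ, hδ0, hδ⟩ := hyp.base hS
  exact cocompact_metric hS hδ0 hδ hfin hconv hΛ hinv f hf

end Pool.Agent.Results.MP_462f25_al.CocompactOffLimitSet
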